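import Pool.Agent.Run7.h283.UE.Tail
import Pool.Agent.TH876.Rad

/-!
# Tuples of members of a family of finite sets of primes, ordered by the union of their sets
-/

set_option autoImplicit false

namespace Run7.h283.MO

open NumberField IsDedekindDomain Finset Pool.Agent.H691R3 Pool.Agent.TH876.Loc
open Run7.h283.MK Run7.h283.UE

variable {K : Type} [Field K] [NumberField K] {ι : Type}

/-- the number of the finite sets of primes of norm at most `X` -/
theorem sets_card : ∃ C : ℝ, 0 < C ∧ ∀ X : ℝ, 0 ≤ X → ∀ t : Finset (Finset (Pr K)),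
    (∀ b ∈ t, nn b ≤ X) → (t.card : ℝ) ≤ C * X := by
  classical
  obtain ⟨C, hC, h⟩ := cnt_le K
  refine ⟨C, hC, fun X hX t ht => ?_⟩
  refine le_trans ?_ (h X hX)
  unfold cnt
  rw [Nat.cast_le]
  refine Finset.card_le_card_of_injOn (fun b => ∏ v ∈ b, v.asIdeal) (fun b hb => ?_) ?_
  · refine Finset.mem_coe.2 (mem_IF.2 ⟨prod_ne b, ?_⟩)
    rw [absNorm_prod']
    exact ht b hb
  · intro a _ b _ hab
    have hab' : (∏ v ∈ a, v.asIdeal) = ∏ v ∈ b, v.asIdeal := hab
    have key : ∀ {a b : Finset (Pr K)}, (∏ v ∈ a, v.asIdeal) = ∏ v ∈ b, v.asIdeal → a ⊆ b := by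
      intro a b hab v hv
      have h1 : v.asIdeal ∣ ∏ v ∈ b, v.asIdeal := by
        rw [← hab]
        exact Finset.dvd_prod_of_mem _ hv
      obtain ⟨w, hw, h2⟩ := (Prime.dvd_finsetProd_iff v.prime _).1 h1
      rwa [dvd_prime h2]
    exact Finset.Subset.antisymm (key hab') (key hab'.symm)

/-- the sum of the powers `-(1 + ε)` of the norms of the finite sets of primes -/
theorem sets_sum {ε : ℝ} (hε : 0 < ε) : ∃ C : ℝ, 0 < C ∧ ∀ t : Finset (Finset (Pr K)),
    ∑ b ∈ t, nn b ^ (-(1 + ε)) ≤ C := by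
  obtain ⟨C, hC, h⟩ := sets_card (K := K)
  have hε1 : 0 < 1 + ε := by linarith
  obtain ⟨C', hC', h'⟩ := power_tail (fun b : Finset (Pr K) => nn b ^ (1 + ε)) hC
    (θ := 1 / (1 + ε)) (by rw [div_lt_one hε1]; linarith) (by
      intro X hX t ht
      have hX0 : 0 ≤ X := by linarith
      refine h (X ^ (1 / (1 + ε))) (by positivity) t fun b hb => ?_
      have h1 := Real.rpow_le_rpow (Real.rpow_nonneg (nn_pos b).le _) (ht b hb)
        (z := 1 / (1 + ε)) (by positivity)
      rwa [← Real.rpow_mul (nn_pos b).le, mul_one_div_cancel hε1.ne', Real.rpow_one] at h1)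
  refine ⟨C', hC', fun t => ?_⟩
  have h1 := h' 1 le_rfl t fun b _ => Real.one_le_rpow (one_le_nn b) hε1.le
  rw [Real.one_rpow, mul_one] at h1
  refine le_trans (le_of_eq (Finset.sum_congr rfl fun b _ => ?_)) h1
  rw [Real.rpow_neg (nn_pos b).le]

/-- powers of the number of elements -/
theorem pow_card {C ε : ℝ} (hC : 1 ≤ C) (hε : 0 < ε) : ∃ D : ℝ, 1 ≤ D ∧
    ∀ T : Finset (Pr K), C ^ T.card ≤ D * nn T ^ ε := by
  classical
  obtain ⟨F0, hF0⟩ : ∃ F0 : Finset (Pr K), F0 = (finite_Nv K (C ^ (1 / ε))).toFinset := ⟨_, rfl⟩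
  have hm : ∀ v, v ∉ F0 → C ≤ Nv v ^ ε := by
    intro v hv
    rw [hF0, Set.Finite.mem_toFinset] at hv
    have h1 : C ^ (1 / ε) ≤ Nv v := by
      by_contra hcon
      push Not at hcon
      exact hv hcon.le
    have h2 := Real.rpow_le_rpow (by positivity) h1 hε.le
    rwa [← Real.rpow_mul (by linarith), one_div_mul_cancel hε.ne', Real.rpow_one] at h2
  refine ⟨C ^ F0.card, one_le_pow₀ hC, fun T => ?_⟩
  have h1 : nn T ^ ε = ∏ v ∈ T, Nv v ^ ε := by
    unfold nn
    exact (Real.finsetProd_rpow T _ (fun v _ => (Nv_pos v).le) ε).symm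
  have h2 : C ^ T.card = (∏ v ∈ T ∩ F0, C) * ∏ v ∈ T \ F0, C := by
    rw [Finset.prod_const, Finset.prod_const, ← pow_add]
    congr 1
    rw [add_comm, Finset.card_sdiff_add_card_inter]
  have h3 : nn T ^ ε = (∏ v ∈ T ∩ F0, Nv v ^ ε) * ∏ v ∈ T \ F0, Nv v ^ ε := by
    rw [h1, mul_comm]
    rw [← Finset.prod_union (by
      rw [Finset.disjoint_left]
      intro v hv hv'
      exact (Finset.mem_sdiff.1 hv).2 (Finset.mem_inter.1 hv').2)]
    congr 1
    exact (Finset.sdiff_union_inter T F0).symm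
  rw [h2, h3]
  have h4 : ∏ v ∈ T ∩ F0, C ≤ C ^ F0.card := by
    rw [Finset.prod_const]
    exact pow_le_pow_right₀ hC (Finset.card_le_card Finset.inter_subset_right)
  have h5 : (1 : ℝ) ≤ ∏ v ∈ T ∩ F0, Nv v ^ ε := by
    refine le_trans (le_of_eq (Finset.prod_const_one (s := T ∩ F0)).symm)
      (Finset.prod_le_prod (fun v _ => zero_le_one) fun v _ =>
        Real.one_le_rpow (one_le_Nv v) hε.le)
  have h6 : ∏ v ∈ T \ F0, C ≤ ∏ v ∈ T \ F0, Nv v ^ ε :=
    Finset.prod_le_prod (fun v _ => by linarith) fun v hv => hm v (Finset.mem_sdiff.1 hv).2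
  have h7 : (0 : ℝ) ≤ ∏ v ∈ T \ F0, Nv v ^ ε :=
    Finset.prod_nonneg fun v _ => Real.rpow_nonneg (Nv_pos v).le _
  calc (∏ v ∈ T ∩ F0, C) * ∏ v ∈ T \ F0, C ≤ C ^ F0.card * ∏ v ∈ T \ F0, Nv v ^ ε :=
        mul_le_mul h4 h6 (Finset.prod_nonneg fun v _ => by linarith) (by positivity)
    _ ≤ C ^ F0.card * ((∏ v ∈ T ∩ F0, Nv v ^ ε) * ∏ v ∈ T \ F0, Nv v ^ ε) := by
        refine mul_le_mul_of_nonneg_left ?_ (by positivity)
        exact le_mul_of_one_le_left h7 h5

open Classical in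
/-- the union of the sets of the members of a tuple -/
noncomputable def un (S : ι → Finset (Pr K)) {k : ℕ} (x : Fin k → ι) : Finset (Pr K) :=
  Finset.univ.biUnion fun i => S (x i)

theorem mem_un {S : ι → Finset (Pr K)} {k : ℕ} {x : Fin k → ι} {v : Pr K} :
    v ∈ un S x ↔ ∃ i, v ∈ S (x i) := by
  classical
  unfold un
  simp

open Classical in
/-- the primes which occur only in the `i`-th set -/
noncomputable def pv (S : ι → Finset (Pr K)) {k : ℕ} (i : Fin (k + 1)) (x : Fin (k + 1) → ι) :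
    Finset (Pr K) :=
  un S x \ un S (i.removeNth x)

open Classical in
theorem un_split (S : ι → Finset (Pr K)) {k : ℕ} (i : Fin (k + 1)) (x : Fin (k + 1) → ι) :
    un S (i.removeNth x) ∪ pv S i x = un S x ∧
      nn (pv S i x) * nn (un S (i.removeNth x)) = nn (un S x) := by
  have h : un S (i.removeNth x) ⊆ un S x := by
    intro v hv
    obtain ⟨j, hj⟩ := mem_un.1 hv
    exact mem_un.2 ⟨_, hj⟩
  exact ⟨Finset.union_sdiff_of_subset h, nn_sdiff h⟩

/-- one of the private parts is small -/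
theorem exists_small (S : ι → Finset (Pr K)) {k : ℕ} (x : Fin (k + 1) → ι) {X : ℝ}
    (hx : nn (un S x) ≤ X) : ∃ i, nn (pv S i x) ≤ X ^ (1 / ((k : ℝ) + 1)) := by
  classical
  by_contra hcon
  push Not at hcon
  have hX1 : 1 ≤ X := (one_le_nn _).trans hx
  have hX0 : 0 ≤ X := by linarith
  have hk : (0 : ℝ) < (k : ℝ) + 1 := by positivity
  have hdisj : ∀ i ∈ (Finset.univ : Finset (Fin (k + 1))), ∀ j ∈ (Finset.univ : Finset (Fin (k + 1))),
      i ≠ j → Disjoint (pv S i x) (pv S j x) := by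
    intro i _ j _ hij
    rw [Finset.disjoint_left]
    intro v hv hv'
    obtain ⟨h1, h2⟩ := Finset.mem_sdiff.1 hv
    obtain ⟨-, h4⟩ := Finset.mem_sdiff.1 hv'
    obtain ⟨l, hl⟩ := mem_un.1 h1
    by_cases hli : l = i
    · obtain ⟨m, hm⟩ := Fin.exists_succAbove_eq (x := i) (y := j) (by rintro rfl; exact hij rfl)
      apply h4
      rw [mem_un]
      refine ⟨m, ?_⟩
      show v ∈ S (x (j.succAbove m))
      rw [hm, ← hli]
      exact hl
    · obtain ⟨m, hm⟩ := Fin.exists_succAbove_eq (x := l) (y := i) hli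
      apply h2
      rw [mem_un]
      refine ⟨m, ?_⟩
      show v ∈ S (x (i.succAbove m))
      rw [hm]
      exact hl
  have h1 : ∏ i, nn (pv S i x) ≤ X := by
    refine le_trans (le_of_eq ?_) ((nn_mono (t := un S x)
      (s := Finset.univ.biUnion fun i => pv S i x) ?_).trans hx)
    · unfold nn
      rw [Finset.prod_biUnion hdisj]
    · intro v hv
      obtain ⟨i, -, hi⟩ := Finset.mem_biUnion.1 hv
      exact (Finset.mem_sdiff.1 hi).1
  have h2 : ∏ _i : Fin (k + 1), X ^ (1 / ((k : ℝ) + 1)) < ∏ i, nn (pv S i x) :=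
    Finset.prod_lt_prod_of_nonempty (fun i _ => by positivity) (fun i _ => hcon i)
      Finset.univ_nonempty
  rw [Finset.prod_const, Finset.card_univ, Fintype.card_fin, ← Real.rpow_natCast,
    ← Real.rpow_mul hX0] at h2
  have h3 : 1 / ((k : ℝ) + 1) * ((k + 1 : ℕ) : ℝ) = 1 := by
    push_cast
    field_simp
  rw [h3, Real.rpow_one] at h2
  linarith

/-- **tuples, ordered by the norm of the union of their sets** -/
theorem tuples {S : ι → Finset (Pr K)} {θ C : ℝ} (hθ1 : θ < 1) (hC : 1 ≤ C)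
    (hcount : ∀ ε : ℝ, 0 < ε → ∃ D : ℝ, 0 < D ∧ ∀ X : ℝ, 1 ≤ X → ∀ F : Finset ι,
      (∀ x ∈ F, nn (S x) ≤ X) → (F.card : ℝ) ≤ D * X ^ (θ + ε))
    (hunit : ∀ T : Finset (Pr K), ∀ F : Finset ι, (∀ x ∈ F, S x ⊆ T) →
      (F.card : ℝ) ≤ C ^ (T.card + 1)) :
    ∀ k : ℕ, ∀ ε : ℝ, 0 < ε → ∃ D : ℝ, 0 < D ∧ ∀ X : ℝ, 1 ≤ X →
      ∀ F : Finset (Fin (k + 1) → ι), (∀ x ∈ F, nn (un S x) ≤ X) →
      (F.card : ℝ) ≤ D * X ^ (1 - (1 - θ) / ((k : ℝ) + 1) + ε) := by
  classical
  intro k
  induction k with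
  | zero =>
    intro ε hε
    obtain ⟨D, hD, h⟩ := hcount ε hε
    refine ⟨D, hD, fun X hX F hF => ?_⟩
    have h1 := h X hX (F.image fun x => x 0) (by
      intro y hy
      obtain ⟨x, hx, rfl⟩ := Finset.mem_image.1 hy
      refine (nn_mono ?_).trans (hF x hx)
      intro v hv
      exact mem_un.2 ⟨0, hv⟩)
    rw [Finset.card_image_of_injective] at h1
    · refine h1.trans (le_of_eq ?_)
      congr 2
      push_cast
      ring
    · intro x y hxy
      funext j
      have hj : j = 0 := Subsingleton.elim (α := Fin 1) j 0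
      rw [hj]
      exact hxy
  | succ k ih =>
    intro ε hε
    have hε2 : 0 < ε / 2 := by linarith
    obtain ⟨D1, hD1, ih'⟩ := ih (ε / 2) hε2
    obtain ⟨D0, hD0, hpow⟩ := pow_card (K := K) hC hε2
    obtain ⟨Cs, hCs, hsum⟩ := sets_sum (K := K) hε2
    obtain ⟨t, ht⟩ : ∃ t : ℝ, t = 1 - (1 - θ) / ((k : ℝ) + 1) := ⟨_, rfl⟩
    have hk1 : (0 : ℝ) < (k : ℝ) + 1 := by positivity
    have ht1 : 0 ≤ 1 - t := by
      rw [ht]
      have : 0 ≤ (1 - θ) / ((k : ℝ) + 1) := div_nonneg (by linarith) hk1.le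
      linarith
    rw [← ht] at ih'
    obtain ⟨A, hA⟩ : ∃ A : ℝ, A = C * D0 * D1 * Cs := ⟨_, rfl⟩
    have hA0 : 0 < A := by rw [hA]; positivity
    refine ⟨((k + 2 : ℕ) : ℝ) * A, by positivity, fun X hX F hF => ?_⟩
    have hX0 : 0 < X := by linarith
    obtain ⟨Y, hY⟩ : ∃ Y : ℝ, Y = X ^ (1 / (((k + 1 : ℕ) : ℝ) + 1)) := ⟨_, rfl⟩
    have hY0 : 0 < Y := by rw [hY]; positivity
    have hexp : X ^ (ε / 2) * (X ^ (t + ε / 2) * Y ^ (1 - t)) =
        X ^ (1 - (1 - θ) / (((k + 1 : ℕ) : ℝ) + 1) + ε) := by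
      rw [hY, ← Real.rpow_mul hX0.le, ← Real.rpow_add hX0, ← Real.rpow_add hX0]
      congr 1
      rw [ht]
      push_cast
      field_simp
      ring
    have hi : ∀ i : Fin (k + 2), ((F.filter fun x => nn (pv S i x) ≤ Y).card : ℝ) ≤
        A * X ^ (1 - (1 - θ) / (((k + 1 : ℕ) : ℝ) + 1) + ε) := by
      intro i
      obtain ⟨Fi, hFi⟩ : ∃ Fi, Fi = F.filter fun x => nn (pv S i x) ≤ Y := ⟨_, rfl⟩
      rw [← hFi]
      have hb : ∀ b ∈ Fi.image (pv S i), ((Fi.filter fun x => pv S i x = b).card : ℝ) ≤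
          C * D0 * D1 * (X ^ (ε / 2) * (X ^ (t + ε / 2) * Y ^ (1 - t))) * nn b ^ (-(1 + ε / 2)) := by
        intro b hbI
        obtain ⟨x0, hx0, hx0b⟩ := Finset.mem_image.1 hbI
        rw [hFi, Finset.mem_filter] at hx0
        have hbX : nn b ≤ X := by
          rw [← hx0b]
          exact (nn_mono Finset.sdiff_subset).trans (hF x0 hx0.1)
        have hbY : nn b ≤ Y := by rw [← hx0b]; exact hx0.2
        have hbp := nn_pos b
        obtain ⟨Fb, hFb⟩ : ∃ Fb, Fb = Fi.filter fun x => pv S i x = b := ⟨_, rfl⟩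
        rw [← hFb]
        have hmem : ∀ x ∈ Fb, x ∈ F ∧ pv S i x = b := by
          intro x hx
          rw [hFb, Finset.mem_filter, hFi, Finset.mem_filter] at hx
          exact ⟨hx.1.1, hx.2⟩
        have hG := ih' (X / nn b) (by rw [le_div_iff₀ hbp, one_mul]; exact hbX)
          (Fb.image fun x => i.removeNth x) (by
            intro y hy
            obtain ⟨x, hx, rfl⟩ := Finset.mem_image.1 hy
            obtain ⟨hxF, hxb⟩ := hmem x hx
            rw [le_div_iff₀ hbp, mul_comm, ← hxb, (un_split S i x).2]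
            exact hF x hxF)
        have hfib : ∀ y ∈ Fb.image fun x => i.removeNth x,
            ((Fb.filter fun x => i.removeNth x = y).card : ℝ) ≤ C * D0 * X ^ (ε / 2) := by
          intro y hy
          obtain ⟨x1, hx1, hx1y⟩ := Finset.mem_image.1 hy
          obtain ⟨hx1F, hx1b⟩ := hmem x1 hx1
          have hT : un S y ∪ b = un S x1 := by
            rw [← hx1y, ← hx1b]
            exact (un_split S i x1).1
          have h1 := hunit (un S y ∪ b) ((Fb.filter fun x => i.removeNth x = y).image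
            fun x => x i) (by
              intro a ha
              obtain ⟨x, hx, rfl⟩ := Finset.mem_image.1 ha
              rw [Finset.mem_filter] at hx
              obtain ⟨-, hxb⟩ := hmem x hx.1
              rw [← hx.2, ← hxb, (un_split S i x).1]
              intro v hv
              exact mem_un.2 ⟨i, hv⟩)
          rw [Finset.card_image_of_injOn] at h1
          · refine h1.trans ?_
            rw [pow_succ, mul_comm, hT, mul_assoc]
            refine mul_le_mul_of_nonneg_left ?_ (by linarith)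
            refine (hpow _).trans (mul_le_mul_of_nonneg_left ?_ (by linarith))
            exact Real.rpow_le_rpow (nn_pos _).le (hF x1 hx1F) hε2.le
          · intro x hx x' hx' hxx
            have e1 : i.removeNth x = i.removeNth x' :=
              (Finset.mem_filter.1 hx).2.trans (Finset.mem_filter.1 hx').2.symm
            funext j
            by_cases hj : j = i
            · rw [hj]
              exact hxx
            · obtain ⟨m, hm⟩ := Fin.exists_succAbove_eq (x := j) (y := i) hj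
              rw [← hm]
              exact congrFun e1 m
        have h2 : (Fb.card : ℝ) ≤ ((Fb.image fun x => i.removeNth x).card : ℝ) *
            (C * D0 * X ^ (ε / 2)) := by
          rw [Finset.card_eq_sum_card_image (fun x => i.removeNth x) Fb, Nat.cast_sum,
            ← nsmul_eq_mul]
          exact Finset.sum_le_card_nsmul _ _ _ hfib
        have h3 : (X / nn b) ^ (t + ε / 2) ≤
            X ^ (t + ε / 2) * (Y ^ (1 - t) * nn b ^ (-(1 + ε / 2))) := by
          rw [Real.div_rpow hX0.le hbp.le, div_eq_mul_inv, ← Real.rpow_neg hbp.le]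
          refine mul_le_mul_of_nonneg_left ?_ (by positivity)
          have e1 : nn b ^ (-(t + ε / 2)) = nn b ^ (1 - t) * nn b ^ (-(1 + ε / 2)) := by
            rw [← Real.rpow_add hbp]
            congr 1
            ring
          rw [e1]
          exact mul_le_mul_of_nonneg_right (Real.rpow_le_rpow hbp.le hbY ht1) (by positivity)
        calc (Fb.card : ℝ) ≤ ((Fb.image fun x => i.removeNth x).card : ℝ) *
              (C * D0 * X ^ (ε / 2)) := h2
          _ ≤ (D1 * (X ^ (t + ε / 2) * (Y ^ (1 - t) * nn b ^ (-(1 + ε / 2))))) *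
              (C * D0 * X ^ (ε / 2)) := by
              refine mul_le_mul_of_nonneg_right ?_ (by positivity)
              exact hG.trans (mul_le_mul_of_nonneg_left h3 hD1.le)
          _ = _ := by ring
      calc (Fi.card : ℝ) = ∑ b ∈ Fi.image (pv S i), ((Fi.filter fun x => pv S i x = b).card : ℝ) := by
            rw [Finset.card_eq_sum_card_image (pv S i) Fi, Nat.cast_sum]
        _ ≤ ∑ b ∈ Fi.image (pv S i), C * D0 * D1 * (X ^ (ε / 2) *
              (X ^ (t + ε / 2) * Y ^ (1 - t))) * nn b ^ (-(1 + ε / 2)) := Finset.sum_le_sum hb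
        _ = C * D0 * D1 * (X ^ (ε / 2) * (X ^ (t + ε / 2) * Y ^ (1 - t))) *
              ∑ b ∈ Fi.image (pv S i), nn b ^ (-(1 + ε / 2)) := by rw [Finset.mul_sum]
        _ ≤ C * D0 * D1 * (X ^ (ε / 2) * (X ^ (t + ε / 2) * Y ^ (1 - t))) * Cs :=
            mul_le_mul_of_nonneg_left (hsum _) (by positivity)
        _ = A * (X ^ (ε / 2) * (X ^ (t + ε / 2) * Y ^ (1 - t))) := by rw [hA]; ring
        _ = _ := by rw [hexp]
    have hcov : F ⊆ Finset.univ.biUnion fun i : Fin (k + 2) =>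
        F.filter fun x => nn (pv S i x) ≤ Y := by
      intro x hx
      obtain ⟨i, hi⟩ := exists_small S x (hF x hx)
      rw [Finset.mem_biUnion]
      exact ⟨i, Finset.mem_univ _, Finset.mem_filter.2 ⟨hx, by rw [hY]; exact hi⟩⟩
    calc (F.card : ℝ) ≤ ((Finset.univ.biUnion fun i : Fin (k + 2) =>
          F.filter fun x => nn (pv S i x) ≤ Y).card : ℝ) := by
          exact_mod_cast Finset.card_le_card hcov
      _ ≤ ∑ i : Fin (k + 2), ((F.filter fun x => nn (pv S i x) ≤ Y).card : ℝ) := by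
          exact_mod_cast Finset.card_biUnion_le
      _ ≤ ∑ _i : Fin (k + 2), A * X ^ (1 - (1 - θ) / (((k + 1 : ℕ) : ℝ) + 1) + ε) :=
          Finset.sum_le_sum fun i _ => hi i
      _ = _ := by
          rw [Finset.sum_const, Finset.card_univ, Fintype.card_fin, nsmul_eq_mul]
          ring

/-- the sum over the tuples converges -/
theorem tuples_summable {S : ι → Finset (Pr K)} {θ C : ℝ} (hθ1 : θ < 1) (hC : 1 ≤ C)
    (hcount : ∀ ε : ℝ, 0 < ε → ∃ D : ℝ, 0 < D ∧ ∀ X : ℝ, 1 ≤ X → ∀ F : Finset ι,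
      (∀ x ∈ F, nn (S x) ≤ X) → (F.card : ℝ) ≤ D * X ^ (θ + ε))
    (hunit : ∀ T : Finset (Pr K), ∀ F : Finset ι, (∀ x ∈ F, S x ⊆ T) →
      (F.card : ℝ) ≤ C ^ (T.card + 1)) (k : ℕ) :
    Summable fun x : Fin (k + 1) → ι => (nn (un S x))⁻¹ := by
  have hk : (0 : ℝ) < (k : ℝ) + 1 := by positivity
  have h1 : 0 < (1 - θ) / ((k : ℝ) + 1) := div_pos (by linarith) hk
  obtain ⟨D, hD, h⟩ := tuples hθ1 hC hcount hunit k ((1 - θ) / ((k : ℝ) + 1) / 2) (by linarith)
  refine summable_of_count (fun x => nn (un S x)) (fun x => one_le_nn _) hD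
    (θ := 1 - (1 - θ) / ((k : ℝ) + 1) + (1 - θ) / ((k : ℝ) + 1) / 2) (by linarith) ?_
  exact fun X hX t ht => h X hX t ht

end Run7.h283.MO
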