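import Pool.Agent.Run7.h283.MO.Tuples
import Pool.Agent.Y728.MainK
import Pool.Agent.TH876.Light

/-!
# Tuples of solutions of unit equations; moments
-/

set_option autoImplicit false

namespace Run7.h283.MO

open NumberField IsDedekindDomain Finset Filter Topology Pool.Agent.H691R3 Pool.Agent.TH876.Loc
open Run7.h283.MK Run7.h283.UE

variable (K : Type) [Field K] [NumberField K]

/-- the points -/
abbrev PT : Type := {x : K // x ≠ 0 ∧ x + 1 ≠ 0}

theorem pt_count : ∀ ε : ℝ, 0 < ε → ∃ D : ℝ, 0 < D ∧ ∀ X : ℝ, 1 ≤ X → ∀ F : Finset (PT K),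
    (∀ x ∈ F, nn (sp x.1) ≤ X) → (F.card : ℝ) ≤ D * X ^ (2 / 3 + ε) := by
  classical
  intro δ hδ
  obtain ⟨D, hD, h⟩ := Pool.Agent.Y728.mainK K δ hδ
  refine ⟨D, hD, fun X hX t ht => ?_⟩
  have hinj : Set.InjOn (fun P : PT K => P.1) t := fun P _ Q _ h => Subtype.ext h
  have h1 := h X hX (t.image fun P => P.1) (fun x hx => by
    obtain ⟨P, hP, rfl⟩ := Finset.mem_image.1 hx
    exact ⟨P.2, ht P hP⟩)
  rwa [Finset.card_image_of_injOn hinj] at h1

theorem pt_unit : ∃ C : ℝ, 1 ≤ C ∧ ∀ T : Finset (Pr K), ∀ F : Finset (PT K),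
    (∀ x ∈ F, sp x.1 ⊆ T) → (F.card : ℝ) ≤ C ^ (T.card + 1) := by
  classical
  obtain ⟨C, hC, h⟩ := light_count (Module.finrank ℚ K) 0 (by norm_num)
  refine ⟨C, hC, fun T F hF => ?_⟩
  have hinj : Set.InjOn (fun P : PT K => P.1) F := fun P _ Q _ h => Subtype.ext h
  have h1 := h K rfl T (F.image fun P => P.1) (fun x hx => by
    obtain ⟨P, hP, rfl⟩ := Finset.mem_image.1 hx
    refine ⟨P.2, ?_⟩
    rw [zero_mul]
    unfold out
    rw [Finset.sdiff_eq_empty_iff_subset.2 (hF P hP), Finset.sum_empty])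
  rwa [Finset.card_image_of_injOn hinj] at h1

/-- **the number of tuples with small joint radical** -/
theorem pt_tuples (k : ℕ) (ε : ℝ) (hε : 0 < ε) : ∃ D : ℝ, 0 < D ∧ ∀ X : ℝ, 1 ≤ X →
    ∀ F : Finset (Fin (k + 1) → PT K), (∀ x ∈ F, nn (un (fun P : PT K => sp P.1) x) ≤ X) →
      (F.card : ℝ) ≤ D * X ^ (1 - 1 / (3 * ((k : ℝ) + 1)) + ε) := by
  obtain ⟨C, hC, h⟩ := pt_unit K
  obtain ⟨D, hD, h'⟩ := tuples (by norm_num) hC (pt_count K) h k ε hε
  refine ⟨D, hD, fun X hX F hF => (h' X hX F hF).trans (le_of_eq ?_)⟩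
  congr 3
  field_simp
  norm_num

theorem pt_summable (k : ℕ) :
    Summable fun x : Fin (k + 1) → PT K => (nn (un (fun P : PT K => sp P.1) x))⁻¹ := by
  obtain ⟨C, hC, h⟩ := pt_unit K
  exact tuples_summable (by norm_num) hC (pt_count K) h k

variable {K} {ι : Type} {S : ι → Finset (Pr K)}

/-- the sum over the ideals -/
theorem sum_ncard (hS : Summable fun i => (nn (S i))⁻¹) (N : ℝ) :
    ∑ n ∈ IF K N, ((U S n).ncard : ℝ) = ∑' i, cnt K (N / nn (S i)) := by
  classical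
  obtain ⟨t, ht⟩ : ∃ t : Finset ι, t = (fin_le hS N).toFinset := ⟨_, rfl⟩
  have h1 : ∀ n ∈ IF K N, ((U S n).ncard : ℝ) =
      ∑ i ∈ t, if (∏ v ∈ S i, v.asIdeal) ∣ n then (1 : ℝ) else 0 := by
    intro n hn
    have hn' := mem_IF.1 hn
    rw [← Finset.sum_filter, Finset.sum_const, nsmul_eq_mul, mul_one, Nat.cast_inj,
      ← Set.ncard_coe_finset]
    congr 1
    ext i
    rw [Finset.coe_filter]
    constructor
    · intro hi
      refine ⟨?_, (prod_dvd_iff _ _).2 hi⟩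
      rw [ht, Set.Finite.mem_toFinset]
      exact (nn_le_of_mem hn'.1 hi).trans hn'.2
    · exact fun hi => (prod_dvd_iff _ _).1 hi.2
  rw [Finset.sum_congr rfl h1, Finset.sum_comm]
  have h2 : ∀ i, (∑ n ∈ IF K N, if (∏ v ∈ S i, v.asIdeal) ∣ n then (1 : ℝ) else 0) =
      cnt K (N / nn (S i)) := by
    intro i
    rw [← Finset.sum_filter, Finset.sum_const, nsmul_eq_mul, mul_one, card_dvd K (prod_ne _),
      absNorm_prod']
  rw [Finset.sum_congr rfl fun i _ => h2 i]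
  rw [tsum_eq_sum]
  intro i hi
  rw [ht, Set.Finite.mem_toFinset] at hi
  have hi' : N < nn (S i) := not_le.1 hi
  refine cnt_zero K ?_
  rw [div_lt_one (nn_pos _)]
  exact hi'

/-- a uniform bound for the sum over the ideals -/
theorem sum_bound : ∃ C : ℝ, 0 < C ∧ ∀ {ι : Type} {S : ι → Finset (Pr K)},
    (Summable fun i => (nn (S i))⁻¹) → ∀ N : ℝ, 0 ≤ N →
      ∑ n ∈ IF K N, ((U S n).ncard : ℝ) ≤ C * (∑' i, (nn (S i))⁻¹) * N := by
  obtain ⟨C, hC, hle⟩ := cnt_le K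
  refine ⟨C, hC, fun {ι S} hS N hN => ?_⟩
  have h1 : ∀ i, cnt K (N / nn (S i)) ≤ C * N * (nn (S i))⁻¹ := by
    intro i
    refine (hle _ (div_nonneg hN (nn_pos _).le)).trans (le_of_eq ?_)
    rw [div_eq_mul_inv]
    ring
  have h2 : Summable fun i => C * N * (nn (S i))⁻¹ := hS.mul_left _
  rw [sum_ncard hS N]
  have h3 : Summable fun i => cnt K (N / nn (S i)) :=
    Summable.of_nonneg_of_le (fun i => cnt_nonneg K _) h1 h2
  refine (h3.tsum_le_tsum h1 h2).trans (le_of_eq ?_)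
  rw [tsum_mul_left]
  ring

/-- the tuples of members -/
theorem U_un (S : ι → Finset (Pr K)) {k : ℕ} (n : Ideal (𝓞 K)) :
    U (fun x : Fin k → ι => un S x) n = {x | ∀ i, x i ∈ U S n} := by
  ext x
  constructor
  · intro hx i v hv
    exact hx v (mem_un.2 ⟨i, hv⟩)
  · intro hx v hv
    obtain ⟨i, hi⟩ := mem_un.1 hv
    exact hx i v hi

theorem ncard_pi (A : Set ι) (k : ℕ) : ({x : Fin k → ι | ∀ i, x i ∈ A}).ncard = A.ncard ^ k := by
  have h : {x : Fin k → ι | ∀ i, x i ∈ A} = Set.range fun (y : Fin k → A) (i : Fin k) => (y i : ι) := by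
    ext x
    constructor
    · intro hx
      exact ⟨fun i => ⟨x i, hx i⟩, rfl⟩
    · rintro ⟨y, rfl⟩ i
      exact (y i).2
  have hinj : Function.Injective fun (y : Fin k → A) (i : Fin k) => (y i : ι) := by
    intro y z hyz
    funext i
    exact Subtype.ext (congrFun hyz i)
  rw [h, ← Set.image_univ, Set.ncard_image_of_injective _ hinj, Set.ncard_univ,
    ← Nat.card_coe_set_eq, Nat.card_fun, Nat.card_eq_fintype_card (α := Fin k), Fintype.card_fin]

end Run7.h283.MO
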